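import Pool.Agent.H21.BS.TB

/-!
# Row CNT of `bes_modules`: points of an interval in one class
-/

set_option autoImplicit false

open Finset Pool.Agent.H6.N4D Pool.Agent.H21.BS

namespace Pool.Agent.H64.BS

theorem pf_CNT : T_CNT := by
  intro N m X hm hX hd
  rcases X.eq_empty_or_nonempty with h0 | h0
  · subst h0
    have : (0 : ℝ) ≤ (N : ℝ) / m := by positivity
    simp only [card_empty, Nat.cast_zero]
    linarith
  · set x0 := X.min' h0 with hx0
    have hx0m : x0 ∈ X := X.min'_mem h0
    have hN : x0 < N := mem_range.mp (hX hx0m)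
    have hmaps : ∀ x ∈ X, (x - x0) / m ∈ range ((N - 1) / m + 1) := by
      intro x hx
      have h1 : x < N := mem_range.mp (hX hx)
      rw [mem_range]
      have : (x - x0) / m ≤ (N - 1) / m := Nat.div_le_div_right (by omega)
      omega
    have hinj : ∀ x ∈ X, ∀ y ∈ X, (x - x0) / m = (y - x0) / m → x = y := by
      intro x hx y hy hxy
      have hxl : x0 ≤ x := X.min'_le x hx
      have hyl : x0 ≤ y := X.min'_le y hy
      have h1 : m ∣ x - x0 := by
        have := hd x hx x0 hx0m
        rw [← Nat.cast_sub hxl] at this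
        exact_mod_cast this
      have h2 : m ∣ y - x0 := by
        have := hd y hy x0 hx0m
        rw [← Nat.cast_sub hyl] at this
        exact_mod_cast this
      have h3 := Nat.div_mul_cancel h1
      have h4 := Nat.div_mul_cancel h2
      rw [hxy] at h3
      omega
    have hc : X.card ≤ (N - 1) / m + 1 := by
      have := card_le_card_of_injOn (fun x => (x - x0) / m) hmaps
        (fun x hx y hy h => hinj x hx y hy h)
      simpa using this
    have hc2 : (X.card : ℝ) ≤ (((N - 1) / m : ℕ) : ℝ) + 1 := by exact_mod_cast hc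
    have h5 : (((N - 1) / m : ℕ) : ℝ) ≤ ((N - 1 : ℕ) : ℝ) / m := Nat.cast_div_le
    have h6 : ((N - 1 : ℕ) : ℝ) / m ≤ (N : ℝ) / m := by
      apply div_le_div_of_nonneg_right _ (by positivity)
      exact_mod_cast Nat.sub_le N 1
    linarith

end Pool.Agent.H64.BS
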