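import Pool.Agent.H21.BS.TB

/-!
# Row NC0 of `bes_modules`: constant frequencies have no bad quadruples
-/

set_option autoImplicit false

open Finset Pool.Agent.H6.N4D Pool.Agent.H21.BS

namespace Pool.Agent.H64.BS

/-- a sum of fractions with distinct prime denominators and a numerator prime to its denominator is
not an integer -/
lemma frac_not_int (q : Fin 4 → ℕ) (hq : ∀ j, (q j).Prime) (hi : Function.Injective q)
    (b : Fin 4 → ℤ) (hb : ¬ ((q 0 : ℤ) ∣ b 0)) (k : ℤ) : ∑ j, (b j : ℝ) / q j ≠ k := by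
  intro h
  have h0 : ∀ j, (q j : ℝ) ≠ 0 := fun j => by exact_mod_cast (hq j).ne_zero
  have h1 : (b 0 : ℝ) * (q 1 * q 2 * q 3) =
      q 0 * (k * (q 1 * q 2 * q 3) - (b 1 * (q 2 * q 3) + b 2 * (q 1 * q 3) + b 3 * (q 1 * q 2))) := by
    rw [Fin.sum_univ_four] at h
    have e0 := h0 0
    have e1 := h0 1
    have e2 := h0 2
    have e3 := h0 3
    field_simp at h
    linear_combination h
  have h2 : (b 0 : ℤ) * (q 1 * q 2 * q 3) =
      q 0 * (k * (q 1 * q 2 * q 3) - (b 1 * (q 2 * q 3) + b 2 * (q 1 * q 3) + b 3 * (q 1 * q 2))) := by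
    exact_mod_cast h1
  have hp0 : Prime (q 0 : ℤ) := Nat.prime_iff_prime_int.mp (hq 0)
  have h3 : (q 0 : ℤ) ∣ b 0 * (q 1 * q 2 * q 3) := ⟨_, h2⟩
  have hne : ∀ j, j ≠ 0 → ¬ ((q 0 : ℤ) ∣ (q j : ℤ)) := by
    intro j hj hdv
    have : q 0 ∣ q j := by exact_mod_cast hdv
    have := (Nat.prime_dvd_prime_iff_eq (hq 0) (hq j)).mp this
    exact hj (hi this.symm)
  rcases hp0.dvd_or_dvd h3 with h4 | h4
  · exact hb h4
  · rcases hp0.dvd_or_dvd h4 with h5 | h5
    · rcases hp0.dvd_or_dvd h5 with h6 | h6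
      · exact hne 1 (by decide) h6
      · exact hne 2 (by decide) h6
    · exact hne 3 (by decide) h5

theorem pf_NC0 : T_NC0 := by
  classical
  intro N κ Q α θ hp hQ hk hk1 hkN hα
  unfold badmass
  have hempty : (Fintype.piFinset fun _ : Fin 4 => Q).filter
      (fun q => Function.Injective q ∧ Bad N κ α q) = ∅ := by
    rw [filter_eq_empty_iff]
    rintro q hq ⟨hi, b, hb, hnd⟩
    have hqm : ∀ j, q j ∈ Q := fun j => (Fintype.mem_piFinset.mp hq) j
    have hpr : ∀ j, (q j).Prime := fun j => hp _ (hqm j)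
    have hα' : α (q 0) - α (q 1) - α (q 2) + α (q 3) = 0 := by
      rw [hα _ (hqm 0), hα _ (hqm 1), hα _ (hqm 2), hα _ (hqm 3)]; ring
    rw [hα', zero_sub, nd_neg] at hnd
    -- the product of the four primes
    set P : ℕ := ∏ j, q j with hP
    have hPpos : 0 < P := prod_pos fun j _ => (hpr j).pos
    have hPr : (0 : ℝ) < P := by exact_mod_cast hPpos
    -- nd is at least 1 / P
    obtain ⟨k, hk'⟩ := exists_int (∑ j, (b j : ℝ) / q j)
    have hlow : 1 / (P : ℝ) ≤ nd (∑ j, (b j : ℝ) / q j) := by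
      rw [← hk']
      have hint : ∃ z : ℤ, (P : ℝ) * (∑ j, (b j : ℝ) / q j - k) = z := by
        refine ⟨∑ j, b j * ((∏ i ∈ univ.erase j, q i : ℕ) : ℤ) - P * k, ?_⟩
        push_cast
        rw [mul_sub, mul_sum]
        congr 1
        refine sum_congr rfl fun j _ => ?_
        have hj : (P : ℝ) = q j * ∏ i ∈ univ.erase j, (q i : ℝ) := by
          rw [hP]; push_cast
          rw [mul_prod_erase univ (fun i => (q i : ℝ)) (mem_univ j)]
        have h0 : (q j : ℝ) ≠ 0 := by exact_mod_cast (hpr j).ne_zero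
        rw [hj]; field_simp
      obtain ⟨z, hz⟩ := hint
      have hz0 : z ≠ 0 := by
        rintro rfl
        have : ∑ j, (b j : ℝ) / q j - k = 0 := by
          have := hz
          push_cast at this
          rcases mul_eq_zero.mp this with h | h
          · exact absurd h hPr.ne'
          · exact h
        exact frac_not_int q hpr hi b (hb 0) k (by linarith)
      have h1 : (1 : ℝ) ≤ |(z : ℝ)| := by
        have : 1 ≤ |z| := Int.one_le_abs hz0
        exact_mod_cast this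
      rw [← hz, abs_mul, abs_of_pos hPr] at h1
      rw [div_le_iff₀ hPr]
      linarith [mul_comm (P : ℝ) |∑ j, (b j : ℝ) / q j - k|]
    -- P ^ 2 ≤ κ N
    have hP2 : P ^ 50 ≤ N := by
      have h1 : P ^ 200 ≤ N ^ 4 := by
        rw [hP, ← prod_pow]
        calc ∏ j, q j ^ 200 ≤ ∏ _j : Fin 4, N := prod_le_prod' fun j _ => hQ _ (hqm j)
          _ = N ^ 4 := by simp
      have h2 : (P ^ 50) ^ 4 ≤ N ^ 4 := by rw [← pow_mul]; exact h1
      exact (Nat.pow_le_pow_iff_left (by norm_num)).mp h2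
    have hP16 : 2 ≤ P := by
      have h1 : ∀ j, 2 ≤ q j := fun j => (hpr j).two_le
      have : 2 ^ 4 ≤ P := by
        rw [hP]
        calc 2 ^ 4 = ∏ _j : Fin 4, 2 := by simp
          _ ≤ ∏ j, q j := prod_le_prod' fun j _ => h1 j
      omega
    have hP4 : (P : ℝ) ^ 4 ≤ N := by
      have : P ^ 4 ≤ P ^ 50 := Nat.pow_le_pow_right hPpos (by norm_num)
      exact_mod_cast this.trans hP2
    have hNpos : (0 : ℝ) < N := lt_of_lt_of_le (by positivity) hP4
    have hkN0 : 0 < κ * N := by positivity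
    have h7 : (P : ℝ) ^ 2 ≤ κ * N := by
      have h8 : ((P : ℝ) ^ 2) ^ 2 ≤ (κ * N) ^ 2 := by
        calc ((P : ℝ) ^ 2) ^ 2 = (P : ℝ) ^ 4 := by ring
          _ ≤ (N : ℝ) := hP4
          _ = 1 * (N : ℝ) := by ring
          _ ≤ (κ ^ 2 * (N : ℝ)) * (N : ℝ) := by gcongr
          _ = (κ * N) ^ 2 := by ring
      exact (pow_le_pow_iff_left₀ (by positivity) hkN0.le (by norm_num)).mp h8
    have h9 : (P : ℝ) < κ * N := by
      have hP2' : (2 : ℝ) ≤ P := by exact_mod_cast hP16
      nlinarith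
    have h10 : 1 / (κ * N) < 1 / (P : ℝ) := one_div_lt_one_div_of_lt hPr h9
    linarith
  rw [hempty, sum_empty]

end Pool.Agent.H64.BS
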